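import Pool.Agent.P.MP_7a6434d8_pr.UWalkAS
import Pool.Agent.P.MP_7a6434d8_pr.UExist

/-!
Subdiffusivity exponent `1/4` for simple random walk on the local limit of uniform planar
quadrangulations: almost surely the maximal graph distance to the starting point up to time `t`
is `t ^ (1/4 + o(1))`.
-/

namespace Pool.Agent.Old.MP_7a6434d8_pr.UIPQWalk

open Pool.Agent.P.MP_7a6434d8_pr MeasureTheory Filter Topology

theorem result : (∃ μ : Measure InfQuad, IsLocalLimit μ) ∧
    ∀ μ : Measure InfQuad, IsLocalLimit μ → ∀ᵐ M ∂μ, ∀ᵐ X ∂M.pathLaw, Tendsto (fun t : ℕ =>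
      Real.log (((Finset.range (t + 1)).sup fun s => M.graph.dist (M.tail M.root) (X s) : ℕ) : ℝ)
        / Real.log t) atTop (𝓝 (1 / 4)) :=
  ⟨exists_localLimit, uipq_walk⟩

end Pool.Agent.Old.MP_7a6434d8_pr.UIPQWalk
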